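import Pool.Agent.Mg.Fc4b7b1.Gbe7192

namespace Pool.Agent.Results.MP_c4b7b1_co.ClassOneProportion

/-- For every fixed `D ≥ 3`, the proportion of labelled graphs on `n` vertices with maximum degree
at most `D` whose chromatic index is `D + 1` stays below a constant `c < 1` for all large `n`. -/
theorem result (D : ℕ) (hD : 3 ≤ D) :
    ∃ c : ℝ, c < 1 ∧ ∀ᶠ n : ℕ in Filter.atTop,
      (({G : SimpleGraph (Fin n) | (∀ v, (G.neighborSet v).ncard ≤ D) ∧
          G.lineGraph.chromaticNumber = (D : ℕ∞) + 1}.ncard : ℝ) /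
        ({G : SimpleGraph (Fin n) | ∀ v, (G.neighborSet v).ncard ≤ D}.ncard : ℝ)) ≤ c :=
  Pool.Agent.MP_c4b7b1_co.main D hD

end Pool.Agent.Results.MP_c4b7b1_co.ClassOneProportion
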