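import Pool.Agent.MP_c4b7b1_co.DS.All

namespace Pool.Agent.Results.MP_c4b7b1_co.DegreeDichotomy

/-- Chromatic index of labelled graphs of maximum degree at most `D ≥ 3`, conditioned on the whole
degree function, or on the number of edges. Either a parity count forces chromatic index `D + 1`
for every graph, or a proportion at least `c = c(D) > 0` has chromatic index at most `D`. -/
theorem result (D : ℕ) (hD : 3 ≤ D) :
    ∃ c : ℝ, 0 < c ∧ ∃ N : ℕ,
      (∀ (n : ℕ) (d : Fin n → ℕ), (∀ v, d v ≤ D) → Even (∑ v, d v) → N ≤ ∑ v, d v →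
        ((∃ X : Finset (Fin n), Odd X.card ∧ ∑ v ∈ X, (D - d v) + ∑ v ∈ Xᶜ, d v < D) →
          ∀ G : SimpleGraph (Fin n), (∀ v, (G.neighborSet v).ncard = d v) →
            G.lineGraph.chromaticNumber = (D : ℕ∞) + 1) ∧
        ((∀ X : Finset (Fin n), Odd X.card → D ≤ ∑ v ∈ X, (D - d v) + ∑ v ∈ Xᶜ, d v) →
          c ≤ ({G : SimpleGraph (Fin n) | (∀ v, (G.neighborSet v).ncard = d v) ∧
                G.lineGraph.chromaticNumber ≤ (D : ℕ∞)}.ncard : ℝ) /
              ({G : SimpleGraph (Fin n) | ∀ v, (G.neighborSet v).ncard = d v}.ncard : ℝ))) ∧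
      (∀ n m : ℕ, N ≤ m →
        (D * (n / 2) < m →
          ∀ G : SimpleGraph (Fin n), (∀ v, (G.neighborSet v).ncard ≤ D) → G.edgeSet.ncard = m →
            G.lineGraph.chromaticNumber = (D : ℕ∞) + 1) ∧
        (m ≤ D * (n / 2) →
          c ≤ ({G : SimpleGraph (Fin n) | ((∀ v, (G.neighborSet v).ncard ≤ D) ∧
                G.edgeSet.ncard = m) ∧ G.lineGraph.chromaticNumber ≤ (D : ℕ∞)}.ncard : ℝ) /
              ({G : SimpleGraph (Fin n) | (∀ v, (G.neighborSet v).ncard ≤ D) ∧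
                G.edgeSet.ncard = m}.ncard : ℝ))) :=
  Pool.Agent.MP_c4b7b1_co.DS.final_Fin Pool.Agent.MP_c4b7b1_co.DS.step_all
    Pool.Agent.MP_c4b7b1_co.DS.base_all Pool.Agent.MP_c4b7b1_co.DS.sObs
    Pool.Agent.MP_c4b7b1_co.DS.sEdge Pool.Agent.MP_c4b7b1_co.DS.sViz D hD

end Pool.Agent.Results.MP_c4b7b1_co.DegreeDichotomy
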